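import Mathlib

/-!
# FGM: germs of colourings, the main induction

Colourings `f` of the pairs of a well-order `W` of type `ν⁺⁺` with at most `ν` colours. The
parameters are the pairs `(a, n)` (predicate `f a y = n`) and the functions of a family `Φ`
restricted to the points similar to `b` over a small set.
-/

set_option autoImplicit false

namespace Pool.Agent.FGM

open Cardinal Order Set Ordinal

/-- The set-theoretic setting: `W` of type `ν⁺⁺`, `(ν⁺) ^ ν = ν⁺`. -/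
structure Setting (ν : Cardinal.{0}) (W : Type) [LinearOrder W] : Prop where
  inf : ℵ₀ ≤ ν
  pow : (succ ν) ^ ν = succ ν
  bW : ∀ s : Set W, #s ≤ succ ν → ∃ b, ∀ a ∈ s, a < b
  iW : ∀ w : W, #(Iio w) ≤ succ ν

/-- Recursion along the ordinals with a free choice at every step. -/
theorem ord_choice {V : Type 1}
    (R : ∀ j : Ordinal.{0}, (∀ j', j' < j → V) → V → Prop) (hR : ∀ j g, ∃ v, R j g v) :
    ∃ h : Ordinal.{0} → V, ∀ j, R j (fun j' _ => h j') (h j) := by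
  classical
  let F : ∀ j : Ordinal.{0}, (∀ j', j' < j → V) → V := fun j g => Classical.choose (hR j g)
  refine ⟨(wellFounded_lt (α := Ordinal.{0})).fix F, fun j => ?_⟩
  have h1 := (wellFounded_lt (α := Ordinal.{0})).fix_eq F j
  rw [h1]
  exact Classical.choose_spec (hR j fun j' _ => (wellFounded_lt (α := Ordinal.{0})).fix F j')

variable {ν : Cardinal.{0}} {W γ : Type} [LinearOrder W]

/-- A family of functions (with a support `sQ` and a domain `Iio eQ`). -/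
structure Fam (ν : Cardinal.{0}) (W γ : Type) [LinearOrder W] where
  Q : Type
  sQ : Q → W
  eQ : Q → W
  fn : Q → W → γ
  bd : ∀ e, #{q | sQ q < e} ≤ succ ν
  le : ∀ q, eQ q ≤ sQ q

/-- The parameters. -/
abbrev X (Φ : Fam ν W γ) : Type :=
  (W × γ) ⊕ {p : Φ.Q × Set (W × γ) // #p.2 ≤ ν ∧ ∀ x ∈ p.2, x.1 < Φ.eQ p.1}

/-- The support of a parameter. -/
def supp (Φ : Fam ν W γ) : X Φ → W
  | Sum.inl p => p.1
  | Sum.inr p => Φ.sQ p.1.1

/-- `a` realises `s`. -/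
def St (f : W → W → γ) (s : Set (W × γ)) (a : W) : Prop := ∀ x ∈ s, x.1 < a ∧ f x.1 a = x.2

/-- The predicate of a parameter. -/
def Tr (Φ : Fam ν W γ) (f : W → W → γ) (T : Set W) : X Φ → W → Prop
  | Sum.inl p, y => f p.1 y = p.2
  | Sum.inr p, y => ∀ a ∈ T, a < Φ.eQ p.1.1 → St f p.1.2 a → f a y = Φ.fn p.1.1 a

/-- `y` is similar to `b` over `s`. -/
def Sim (Φ : Fam ν W γ) (f : W → W → γ) (T : Set W) (s : Set (X Φ)) (y b : W) : Prop :=
  ∀ x ∈ s, supp Φ x < y ∧ (Tr Φ f T x y ↔ Tr Φ f T x b)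

/-- The cofinality of `c` is larger than `ν`. -/
def CofI (ν : Cardinal.{0}) (c : W) : Prop :=
  ∀ s : Set W, #s ≤ ν → (∀ a ∈ s, a < c) → ∃ b < c, ∀ a ∈ s, a < b

theorem small_sets (hs : Setting ν W) {Y : Type} (A : Set Y) (hA : #A ≤ succ ν) :
    #{t : Set Y // t ⊆ A ∧ #t ≤ ν} ≤ succ ν := by
  refine (mk_bounded_subset_le _ _).trans ?_
  refine le_trans (power_le_power_right (c := ν) ?_) hs.pow.le
  exact max_le hA (hs.inf.trans (le_succ ν))

theorem bd_X (hs : Setting ν W) (Φ : Fam ν W γ) (hγ : #γ ≤ ν) (d : W) :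
    #{x : X Φ | supp Φ x < d} ≤ succ ν := by
  have hinf : ℵ₀ ≤ succ ν := hs.inf.trans (le_succ ν)
  let B := {t : Set (W × γ) // t ⊆ {x | x.1 < d} ∧ #t ≤ ν}
  have h0 : #{x : W × γ | x.1 < d} ≤ succ ν := by
    have h1 : #{x : W × γ | x.1 < d} ≤ #(Iio d × γ) := by
      refine mk_le_of_injective (f := fun x => (⟨x.1.1, x.2⟩, x.1.2)) ?_
      rintro ⟨⟨i, x⟩, hx⟩ ⟨⟨j, y⟩, hy⟩ h
      simpa using h
    refine h1.trans ?_
    rw [mk_prod, Cardinal.lift_id, Cardinal.lift_id]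
    exact (mul_le_mul' (hs.iW d) (hγ.trans (le_succ ν))).trans (mul_eq_self hinf).le
  have hB : #B ≤ succ ν := small_sets hs _ h0
  have h1 : #{x : X Φ | supp Φ x < d} ≤
      #({x : W × γ | x.1 < d} ⊕ ({q | Φ.sQ q < d} × B)) := by
    refine mk_le_of_injective (f := fun x => match x with
      | ⟨Sum.inl p, hp⟩ => Sum.inl ⟨p, hp⟩
      | ⟨Sum.inr p, hp⟩ => Sum.inr (⟨p.1.1, hp⟩, ⟨p.1.2, fun x hx =>
          (p.2.2 x hx).trans_le ((Φ.le _).trans hp.le), p.2.1⟩)) ?_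
    rintro ⟨p | ⟨⟨q, t⟩, ht⟩, hx⟩ ⟨p' | ⟨⟨q', t'⟩, ht'⟩, hy⟩ h
    · simpa using h
    · simp at h
    · simp at h
    · simp only [Sum.inr.injEq, Prod.mk.injEq, Subtype.mk.injEq] at h
      obtain ⟨h2, h3⟩ := h
      have h4 : t = t' := congrArg Subtype.val h3
      subst h2 h4
      rfl
  refine h1.trans ?_
  rw [mk_sum, mk_prod]
  simp only [Cardinal.lift_id]
  have h4 : #{q | Φ.sQ q < d} * #B ≤ succ ν :=
    (mul_le_mul' (Φ.bd d) hB).trans (mul_eq_self hinf).le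
  exact (add_le_add h0 h4).trans (add_eq_self hinf).le

/-- Club many points are closed. -/
theorem closed [WellFoundedLT W] (hs : Setting ν W) (Φ : Fam ν W γ) (hγ : #γ ≤ ν)
    (f : W → W → γ) (T : Set W) :
    ∃ F : W → W, ∀ c, CofI ν c → (∀ d < c, F d < c) → ∀ s : Set (X Φ), #s ≤ ν →
      (∀ x ∈ s, supp Φ x < c) → ∀ b ∈ T, c ≤ b → ∃ y ∈ T, y < c ∧ Sim Φ f T s y b := by
  classical
  -- the least element of a class
  let cl : Set (X Φ) × Set (X Φ) → Set W := fun p =>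
    {y | y ∈ T ∧ ∀ x ∈ p.1, supp Φ x < y ∧ (Tr Φ f T x y ↔ x ∈ p.2)}
  have hD : ∀ d : W, ∃ b, ∀ s t : Set (X Φ), (∀ x ∈ s, supp Φ x < d) → #s ≤ ν →
      (∀ x ∈ t, supp Φ x < d) → #t ≤ ν → (cl (s, t)).Nonempty → ∃ y ∈ cl (s, t), y < b := by
    intro d
    let mn : Set (X Φ) × Set (X Φ) → W := fun p =>
      if h : (cl p).Nonempty then (wellFounded_lt (α := W)).min (cl p) h else d
    let B := {t : Set (X Φ) // t ⊆ {x | supp Φ x < d} ∧ #t ≤ ν}
    have hB : #B ≤ succ ν := small_sets hs _ (bd_X hs Φ hγ d)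
    have hr : #(range fun p : B × B => mn (p.1.1, p.2.1)) ≤ succ ν := by
      refine mk_range_le.trans ?_
      rw [← mul_def]
      refine (mul_le_mul' hB hB).trans ?_
      exact (mul_eq_self (hs.inf.trans (le_succ ν))).le
    obtain ⟨b, hb⟩ := hs.bW _ hr
    refine ⟨b, fun s t h1 h2 h3 h4 hne => ⟨mn (s, t), ?_, hb _ ⟨(⟨s, h1, h2⟩, ⟨t, h3, h4⟩), rfl⟩⟩⟩
    have h5 : mn (s, t) = (wellFounded_lt (α := W)).min (cl (s, t)) hne := dif_pos hne
    rw [h5]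
    exact WellFounded.min_mem _ _ _
  choose F hF using hD
  refine ⟨F, fun c hc hcl s hsν hsc b hbT hb => ?_⟩
  obtain ⟨d, hdc, hd⟩ := hc (supp Φ '' s) (mk_image_le.trans hsν) (by
    rintro a ⟨x, hx, rfl⟩
    exact hsc x hx)
  obtain ⟨t, ht⟩ : ∃ t : Set (X Φ), t = {x ∈ s | Tr Φ f T x b} := ⟨_, rfl⟩
  have hts : t ⊆ s := by
    rw [ht]
    exact fun x hx => hx.1
  have hsd : ∀ x ∈ s, supp Φ x < d := fun x hx => hd _ ⟨x, hx, rfl⟩
  obtain ⟨y, hy, hyb⟩ := hF d s t hsd hsν (fun x hx => hsd x (hts hx))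
    ((mk_le_mk_of_subset hts).trans hsν) ⟨b, hbT, fun x hx => ⟨(hsc x hx).trans_le hb, by
      rw [ht]
      exact ⟨fun h => ⟨hx, h⟩, fun h => h.2⟩⟩⟩
  refine ⟨y, hy.1, hyb.trans (hcl d hdc), fun x hx => ⟨(hy.2 x hx).1, (hy.2 x hx).2.trans ?_⟩⟩
  rw [ht]
  exact ⟨fun h => h.2, fun h => ⟨hx, h⟩⟩

/-- The `n`-homogeneous sets of type `ξ` below `b`, similar to `b` over `s`, which are captured
by a parameter `q` true at `b`. -/
def Good (Φ : Fam ν W γ) (f : W → W → γ) (T : Set W) (b z : W) (n : γ) (ξ : Ordinal.{0})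
    (s : Set (X Φ)) (h : Ordinal.{0} → W) (q : X Φ) : Prop :=
  (∀ i j, i < j → j < ξ → h i < h j ∧ f (h i) (h j) = n) ∧
  (∀ j < ξ, h j ∈ T ∧ f (h j) b = n ∧ Sim Φ f T s (h j) b) ∧
  (∀ j < ξ, h j ≤ supp Φ q) ∧ supp Φ q < z ∧ Tr Φ f T q b ∧
  ∀ y, supp Φ q < y → Tr Φ f T q y → ∀ j < ξ, f (h j) y = n

/-- The main claim. -/
def Claim (Φ : Fam ν W γ) (f : W → W → γ) (T : Set W) (b z : W) (n : γ) (ξ : Ordinal.{0}) :
    Prop :=
  ∀ s : Set (X Φ), #s ≤ ν → (∀ x ∈ s, supp Φ x < z) → ∃ h q, Good Φ f T b z n ξ s h q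

theorem union_le (hν : ℵ₀ ≤ ν) (hγ : #γ ≤ ν) {Y : Type} (s : γ → Set Y) (h : ∀ n, #(s n) ≤ ν) :
    #(⋃ n, s n : Set Y) ≤ ν := by
  refine (mk_iUnion_le_sum_mk).trans ?_
  refine (sum_le_mk_mul_iSup _).trans ?_
  refine (mul_le_mul' hγ (ciSup_le' h)).trans ?_
  exact (mul_eq_self hν).le

theorem base [WellFoundedLT W] (hs : Setting ν W) (Φ : Fam ν W γ) (hγ : #γ ≤ ν)
    (f : W → W → γ) (T : Set W) :
    ∃ F : W → W, ∀ z, CofI ν z → (∀ d < z, F d < z) → ∀ b ∈ T, z ≤ b →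
      ∃ n, Claim Φ f T b z n 1 := by
  classical
  obtain ⟨F, hF⟩ := closed hs Φ hγ f T
  refine ⟨F, fun z hz hzF b hbT hb => ?_⟩
  by_contra hcon
  push Not at hcon
  unfold Claim at hcon
  push Not at hcon
  choose s hs1 hs2 hs3 using hcon
  obtain ⟨y, hyT, hyz, hsim⟩ := hF z hz hzF (⋃ n, s n) (union_le hs.inf hγ s hs1) (by
    intro x hx
    obtain ⟨n, hn⟩ := mem_iUnion.1 hx
    exact hs2 n x hn) b hbT hb
  refine hs3 (f y b) (fun _ => y) (Sum.inl (y, f y b)) ⟨?_, ?_, fun _ _ => le_rfl, hyz, rfl, ?_⟩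
  · intro i j hij hj
    rw [Order.lt_one_iff] at hj
    rw [hj] at hij
    exact absurd hij (not_lt_zero)
  · intro j _
    exact ⟨hyT, rfl, fun x hx => hsim x (mem_iUnion.2 ⟨_, hx⟩)⟩
  · intro y' hy' hTr j _
    exact hTr

/-- A sequence of `ν⁺` consecutive blocks. -/
theorem blocks (hs : Setting ν W) (Φ : Fam ν W γ) (f : W → W → γ) (T : Set W) (b z : W) (n : γ)
    (ξ : Ordinal.{0}) (hcl : Claim Φ f T b z n ξ) (s : Set (X Φ)) (hsν : #s ≤ ν)
    (hsz : ∀ x ∈ s, supp Φ x < z) :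
    ∃ h : Ordinal.{0} → (Ordinal.{0} → W) × X Φ, ∀ j < (succ ν).ord,
      Good Φ f T b z n ξ (s ∪ {x | ∃ j' < j, x = (h j').2}) (h j).1 (h j).2 := by
  classical
  obtain ⟨h, hh⟩ := ord_choice (V := (Ordinal.{0} → W) × X Φ)
    (fun j k v => j < (succ ν).ord → (∀ j' (hj : j' < j), supp Φ (k j' hj).2 < z) →
      Good Φ f T b z n ξ (s ∪ {x | ∃ j', ∃ hj : j' < j, x = (k j' hj).2}) v.1 v.2) (by
      intro j k
      by_cases hcase : j < (succ ν).ord ∧ ∀ j' (hj : j' < j), supp Φ (k j' hj).2 < z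
      · obtain ⟨hj, hk⟩ := hcase
        have hcard : #{x : X Φ | ∃ j', ∃ hj : j' < j, x = (k j' hj).2} ≤ ν := by
          have h1 : {x : X Φ | ∃ j', ∃ hj : j' < j, x = (k j' hj).2} =
              range fun j' : Iio j => (k j'.1 j'.2).2 := by
            ext x
            constructor
            · rintro ⟨j', hj', rfl⟩
              exact ⟨⟨j', hj'⟩, rfl⟩
            · rintro ⟨⟨j', hj'⟩, rfl⟩
              exact ⟨j', hj', rfl⟩
          rw [h1]
          have h2 := mk_range_le_lift (f := fun j' : Iio j => (k j'.1 j'.2).2)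
          rw [Cardinal.mk_Iio_ordinal] at h2
          have h3 : j.card ≤ ν := lt_succ_iff.1 (Cardinal.lt_ord.1 hj)
          rw [← Cardinal.lift_le.{1}]
          refine h2.trans ?_
          rw [Cardinal.lift_lift, Cardinal.lift_le]
          exact h3
        obtain ⟨h, q, hq⟩ := hcl (s ∪ {x | ∃ j', ∃ hj : j' < j, x = (k j' hj).2})
          ((mk_union_le _ _).trans ((add_le_add hsν hcard).trans (add_eq_self hs.inf).le)) (by
          rintro x (hx | ⟨j', hj', rfl⟩)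
          · exact hsz x hx
          · exact hk j' hj')
        exact ⟨(h, q), fun _ _ => hq⟩
      · refine ⟨(fun _ => b, Sum.inl (b, n)), fun h1 h2 => absurd ⟨h1, h2⟩ hcase⟩)
  have key : ∀ j, j < (succ ν).ord → supp Φ (h j).2 < z := by
    intro j
    induction j using WellFoundedLT.induction with
    | _ j ih =>
      intro hj
      exact (hh j hj fun j' hj' => ih j' hj' (hj'.trans hj)).2.2.2.1
  refine ⟨h, fun j hj => ?_⟩
  have h1 := hh j hj fun j' hj' => key j' (hj'.trans hj)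
  have h2 : {x : X Φ | ∃ j', ∃ hj : j' < j, x = (h j').2} = {x | ∃ j' < j, x = (h j').2} := by
    ext x
    constructor
    · rintro ⟨j', hj', rfl⟩
      exact ⟨j', hj', rfl⟩
    · rintro ⟨j', hj', rfl⟩
      exact ⟨j', hj', rfl⟩
  rw [h2] at h1
  exact h1

/-- The union of `ν⁺` consecutive blocks. -/
theorem union (hs : Setting ν W) (Φ : Fam ν W γ) (f : W → W → γ) (T : Set W) (b z : W) (n : γ)
    (ξ : Ordinal.{0}) (hξ : ξ ≠ 0) (hcl : Claim Φ f T b z n ξ) (s : Set (X Φ)) (hsν : #s ≤ ν)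
    (hsz : ∀ x ∈ s, supp Φ x < z) :
    ∃ h : Ordinal.{0} → W, (∀ i j, i < j → j < ξ * (succ ν).ord → h i < h j ∧ f (h i) (h j) = n) ∧
      ∀ j < ξ * (succ ν).ord, h j ∈ T ∧ f (h j) b = n ∧ h j < z ∧ Sim Φ f T s (h j) b := by
  obtain ⟨h, hh⟩ := blocks hs Φ f T b z n ξ hcl s hsν hsz
  have hdiv : ∀ r < ξ * (succ ν).ord, r / ξ < (succ ν).ord := fun r hr =>
    (Ordinal.lt_mul_iff_div_lt hξ).1 hr
  have hmod : ∀ r : Ordinal.{0}, r % ξ < ξ := fun r => Ordinal.mod_lt r hξ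
  refine ⟨fun r => (h (r / ξ)).1 (r % ξ), ?_, ?_⟩
  · intro r r' hrr hr'
    have hr := hrr.trans hr'
    rcases (Ordinal.div_le_left hrr.le ξ).lt_or_eq with hlt | heq
    · -- different blocks
      have h1 := (hh _ (hdiv r hr)).2.2.2.2.2
      have h2 := ((hh _ (hdiv r' hr')).2.1 _ (hmod r')).2.2 (h (r / ξ)).2
        (Or.inr ⟨r / ξ, hlt, rfl⟩)
      have h3 := h1 _ h2.1 (h2.2.2 (hh _ (hdiv r hr)).2.2.2.2.1) _ (hmod r)
      exact ⟨((hh _ (hdiv r hr)).2.2.1 _ (hmod r)).trans_lt h2.1, h3⟩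
    · have h1 : r % ξ < r' % ξ := by
        have h2 := Ordinal.div_add_mod r ξ
        have h3 := Ordinal.div_add_mod r' ξ
        rw [← heq] at h3
        rw [← h2, ← h3] at hrr
        exact (add_lt_add_iff_left _).1 hrr
      simp only
      rw [← heq]
      exact (hh _ (hdiv r hr)).1 _ _ h1 (hmod r')
  · intro r hr
    have h1 := (hh _ (hdiv r hr)).2.1 _ (hmod r)
    exact ⟨h1.1, h1.2.1, ((hh _ (hdiv r hr)).2.2.1 _ (hmod r)).trans_lt
      (hh _ (hdiv r hr)).2.2.2.1, fun x hx => h1.2.2 x (Or.inl hx)⟩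

/-- `f · b` is represented below `η` by the function `q` of the family. -/
def Rep (Φ : Fam ν W γ) (f : W → W → γ) (T : Set W) (b η : W) (q : Φ.Q) : Prop :=
  Φ.eQ q = η ∧ ∃ s : Set (W × γ), #s ≤ ν ∧ (∀ x ∈ s, x.1 < η ∧ f x.1 b = x.2) ∧
    ∀ a ∈ T, a < η → St f s a → f a b = Φ.fn q a

/-- The local step. -/
theorem lstep (hs : Setting ν W) (Φ : Fam ν W γ) (f : W → W → γ) (T : Set W) (b z : W) (n : γ)
    (ξ : Ordinal.{0}) (hξ : ξ ≠ 0) (hz : CofI ν z)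
    (H : ∀ e < z, ∃ η, e < η ∧ Claim Φ f T b η n ξ ∧ ∃ q, Φ.sQ q < z ∧ Rep Φ f T b η q) :
    Claim Φ f T b z n (ξ * (succ ν).ord) := by
  classical
  intro s hsν hsz
  obtain ⟨e, hez, he⟩ := hz (supp Φ '' s) (mk_image_le.trans hsν) (by
    rintro a ⟨x, hx, rfl⟩
    exact hsz x hx)
  obtain ⟨η, heη, hη, q, hqz, hqe, t, htν, htb, ht⟩ := H e hez
  obtain ⟨h, hh1, hh2⟩ := union hs Φ f T b η n ξ hξ hη (s ∪ Sum.inl '' t)
    ((mk_union_le _ _).trans ((add_le_add hsν (mk_image_le.trans htν)).trans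
      (add_eq_self hs.inf).le)) (by
    rintro x (hx | ⟨y, hy, rfl⟩)
    · exact (he _ ⟨x, hx, rfl⟩).trans heη
    · exact (htb y hy).1)
  have hSt : ∀ j < ξ * (succ ν).ord, St f t (h j) := by
    intro j hj x hx
    have h1 := (hh2 j hj).2.2.2 (Sum.inl x) (Or.inr ⟨x, hx, rfl⟩)
    exact ⟨h1.1, h1.2.2 (htb x hx).2⟩
  refine ⟨h, Sum.inr ⟨(q, t), htν, fun x hx => by rw [hqe]; exact (htb x hx).1⟩, hh1, ?_, ?_, hqz,
    ?_, ?_⟩
  · intro j hj
    exact ⟨(hh2 j hj).1, (hh2 j hj).2.1, fun x hx => (hh2 j hj).2.2.2 x (Or.inl hx)⟩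
  · intro j hj
    exact (hh2 j hj).2.2.1.le.trans (hqe.symm.le.trans (Φ.le q))
  · intro a haT ha hSta
    rw [hqe] at ha
    exact ht a haT ha hSta
  · intro y hy hTr j hj
    have h1 := hh2 j hj
    have h2 := ht _ h1.1 h1.2.2.1 (hSt j hj)
    have h3 := hTr _ h1.1 (by rw [hqe]; exact h1.2.2.1) (hSt j hj)
    rw [h3]
    exact h2.symm.trans h1.2.1

/-- Pigeonhole below a point of large cofinality. -/
theorem pigeon (hγ : #γ ≤ ν) {z : W} (hz : CofI ν z) (R : W → γ → Prop)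
    (H : ∀ e < z, ∃ η, e < η ∧ ∃ n, R η n) : ∃ n, ∀ e < z, ∃ η, e < η ∧ R η n := by
  by_contra hcon
  push Not at hcon
  choose e he1 he2 using hcon
  obtain ⟨c, hcz, hc⟩ := hz (range e) (mk_range_le.trans hγ) (by
    rintro a ⟨n, rfl⟩
    exact he1 n)
  obtain ⟨η, hη, n, hn⟩ := H c hcz
  exact he2 n η ((hc _ ⟨n, rfl⟩).trans hη) hn

end Pool.Agent.FGM
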