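import Pool.Agent.FGM.Basic

/-!
# FGM: the two theorems for well-orders
-/

set_option autoImplicit false

namespace Pool.Agent.FGM

open Cardinal Order Set Ordinal

variable {ν : Cardinal.{0}} {W I γ : Type} [LinearOrder W]

/-- The family of the functions `g η i`. -/
def famA (hs : Setting ν W) (hI : #I ≤ succ ν) (g : W → I → W → γ) : Fam ν W γ where
  Q := W × I
  sQ q := q.1
  eQ q := q.1
  fn q a := g q.1 q.2 a
  bd e := by
    have hinf : ℵ₀ ≤ succ ν := hs.inf.trans (le_succ ν)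
    have h1 : #{q : W × I | q.1 < e} ≤ #(Iio e × I) := by
      refine mk_le_of_injective (f := fun x => (⟨x.1.1, x.2⟩, x.1.2)) ?_
      rintro ⟨⟨i, x⟩, hx⟩ ⟨⟨j, y⟩, hy⟩ h
      simpa using h
    refine h1.trans ?_
    rw [mk_prod, Cardinal.lift_id, Cardinal.lift_id]
    exact (mul_le_mul' (hs.iW e) hI).trans (mul_eq_self hinf).le
  le _ := le_rfl

/-- The family of the functions `f · c` below `η ≤ c`. -/
def famB (hs : Setting ν W) (f : W → W → γ) : Fam ν W γ where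
  Q := {p : W × W // p.1 ≤ p.2}
  sQ q := q.1.2
  eQ q := q.1.1
  fn q a := f a q.1.2
  bd e := by
    have hinf : ℵ₀ ≤ succ ν := hs.inf.trans (le_succ ν)
    have h1 : #{q : {p : W × W // p.1 ≤ p.2} | q.1.2 < e} ≤ #(Iio e × Iio e) := by
      refine mk_le_of_injective (f := fun x => (⟨x.1.1.1, x.1.2.trans_lt x.2⟩, ⟨x.1.1.2, x.2⟩)) ?_
      rintro ⟨⟨⟨i, x⟩, hi⟩, hx⟩ ⟨⟨⟨j, y⟩, hj⟩, hy⟩ h
      simpa using h
    refine h1.trans ?_
    rw [mk_prod, Cardinal.lift_id]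
    exact (mul_le_mul' (hs.iW e) (hs.iW e)).trans (mul_eq_self hinf).le
  le q := q.2

/-- Few germs. -/
theorem mainA [WellFoundedLT W] (hs : Setting ν W) (hI : #I ≤ succ ν) (hγ : #γ ≤ ν)
    (f : W → W → γ) (T S : Set W) (g : W → I → W → γ) (w₀ : W)
    (hT : ∀ e, ∃ b ∈ T, e ≤ b)
    (hst : ∀ (F : W → W) (e : W), ∃ η ∈ S, e < η ∧ CofI ν η ∧ ∀ d < η, F d < η)
    (hg : ∀ η ∈ S, ∀ b ∈ T, η ≤ b → ∃ i, ∃ s : Set (W × γ), #s ≤ ν ∧
      (∀ x ∈ s, x.1 < η ∧ f x.1 b = x.2) ∧ ∀ a ∈ T, a < η → St f s a → f a b = g η i a)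
    (m : ℕ) :
    ∃ (n : γ) (h : Ordinal.{0} → W), (∀ i j, i < j → j < (succ ν).ord ^ m →
      h i < h j ∧ f (h i) (h j) = n) ∧ ∀ j < (succ ν).ord ^ m, h j ∈ T := by
  have hpos : (succ ν).ord ≠ 0 := by
    rw [Ne, Cardinal.ord_eq_zero]
    exact (lt_of_lt_of_le aleph0_pos (hs.inf.trans (le_succ ν))).ne'
  obtain ⟨Φ, hΦ⟩ : ∃ Φ, Φ = famA hs hI g := ⟨_, rfl⟩
  have key : ∀ m : ℕ, ∃ F : W → W, ∀ z, CofI ν z → (∀ d < z, F d < z) → ∀ b ∈ T, z ≤ b →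
      ∃ n, Claim Φ f T b z n ((succ ν).ord ^ m) := by
    intro m
    induction m with
    | zero =>
      rw [pow_zero]
      exact base hs Φ hγ f T
    | succ m ih =>
      rw [pow_succ]
      obtain ⟨F, hF⟩ := ih
      choose p hpS hpe hpc hpF using hst F
      refine ⟨p, fun z hz hzp b hbT hb => ?_⟩
      obtain ⟨n, hn⟩ := pigeon hγ hz (fun η n => Claim Φ f T b η n ((succ ν).ord ^ m) ∧
          ∃ q, Φ.sQ q < z ∧ Rep Φ f T b η q) (by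
        intro e he
        have hpz := hzp e he
        obtain ⟨n, hn⟩ := hF (p e) (hpc e) (hpF e) b hbT (hpz.le.trans hb)
        obtain ⟨i, s, h1, h2, h3⟩ := hg (p e) (hpS e) b hbT (hpz.le.trans hb)
        refine ⟨p e, hpe e, n, hn, ?_⟩
        subst hΦ
        exact ⟨(p e, i), hpz, rfl, s, h1, h2, h3⟩)
      exact ⟨n, lstep hs Φ f T b z n _ (pow_ne_zero m hpos) hz fun e he => by
        obtain ⟨η, h1, h2, h3⟩ := hn e he
        exact ⟨η, h1, h2, h3⟩⟩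
  obtain ⟨F, hF⟩ := key m
  obtain ⟨η, -, -, hηc, hηF⟩ := hst F w₀
  obtain ⟨b, hbT, hb⟩ := hT η
  obtain ⟨n, hn⟩ := hF η hηc hηF b hbT hb
  obtain ⟨h, q, hq⟩ := hn ∅ (by rw [mk_eq_zero]; exact zero_le)
    (fun x hx => absurd hx (notMem_empty x))
  exact ⟨n, h, hq.1, fun j hj => (hq.2.1 j hj).1⟩

/-- Old germs. -/
theorem mainB [WellFoundedLT W] (hs : Setting ν W) (hγ : #γ ≤ ν) (f : W → W → γ) (T : Set W)
    (hst : ∀ F : W → W, ∃ b ∈ T, CofI ν b ∧ (∀ d < b, F d < b) ∧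
      ∀ e < b, ∃ η, e < η ∧ CofI ν η ∧ (∀ d < η, F d < η) ∧ ∃ c, η ≤ c ∧ c < b ∧
        ∃ U : Set W, #U ≤ ν ∧ (∀ u ∈ U, u < η) ∧
          ∀ a ∈ T, a < η → (∀ u ∈ U, u < a ∧ f u a = f u b) → f a b = f a c) :
    ∃ (n : γ) (b : W) (h : Ordinal.{0} → W), b ∈ T ∧
      (∀ i j, i < j → j < (succ ν).ord * (succ ν).ord → h i < h j ∧ f (h i) (h j) = n) ∧
      ∀ j < (succ ν).ord * (succ ν).ord, h j ∈ T ∧ h j < b ∧ f (h j) b = n := by
  have hpos : (succ ν).ord ≠ 0 := by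
    rw [Ne, Cardinal.ord_eq_zero]
    exact (lt_of_lt_of_le aleph0_pos (hs.inf.trans (le_succ ν))).ne'
  obtain ⟨Φ, hΦ⟩ : ∃ Φ, Φ = famB hs f := ⟨_, rfl⟩
  obtain ⟨F, hF⟩ := base hs Φ hγ f T
  obtain ⟨b, hbT, hbc, hbF, hb⟩ := hst F
  obtain ⟨n, hn⟩ := pigeon hγ hbc (fun η n => Claim Φ f T b η n 1 ∧
      ∃ q, Φ.sQ q < b ∧ Rep Φ f T b η q) (by
    intro e he
    obtain ⟨η, h1, h2, h3, c, h4, h5, U, h6, h7, h8⟩ := hb e he
    obtain ⟨n, hn⟩ := hF η h2 h3 b hbT (h4.trans h5.le)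
    refine ⟨η, h1, n, hn, ?_⟩
    subst hΦ
    refine ⟨⟨(η, c), h4⟩, h5, rfl, (fun u => (u, f u b)) '' U, mk_image_le.trans h6, ?_, ?_⟩
    · rintro x ⟨u, hu, rfl⟩
      exact ⟨h7 u hu, rfl⟩
    · intro a haT ha hSt
      exact h8 a haT ha fun u hu => hSt _ ⟨u, hu, rfl⟩)
  have hcl := lstep hs Φ f T b b n 1 one_ne_zero hbc fun e he => by
    obtain ⟨η, h1, h2, h3⟩ := hn e he
    exact ⟨η, h1, h2, h3⟩
  rw [one_mul] at hcl
  obtain ⟨h, hh1, hh2⟩ := union hs Φ f T b b n _ hpos hcl ∅ (by rw [mk_eq_zero]; exact zero_le)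
    (fun x hx => absurd hx (notMem_empty x))
  exact ⟨n, b, h, hbT, hh1, fun j hj => ⟨(hh2 j hj).1, (hh2 j hj).2.2.1, (hh2 j hj).2.1⟩⟩

end Pool.Agent.FGM
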