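import Pool.Agent.FGM.Main

/-!
# FGM: the two theorems for ordinals

The transfer lemmas between an ordinal and its well-ordered type are taken from
`Pool.Agent.TRC.Fin`.
-/

set_option autoImplicit false

namespace Pool.Agent.FGM

open Cardinal Order Set Ordinal

theorem reg_bdd {κ : Cardinal.{0}} (hκ : κ.IsRegular) (s : Set κ.ord.ToType) (hs : #s < κ) :
    ∃ b, ∀ a ∈ s, a < b := by
  by_contra hcon
  push Not at hcon
  have h1 : IsCofinal s := fun b => by
    obtain ⟨a, ha, hab⟩ := hcon b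
    exact ⟨a, ha, hab⟩
  have h2 := Order.cof_le h1
  rw [Ordinal.cof_toType, hκ.cof_ord] at h2
  exact absurd h2 (not_le.2 hs)

theorem mk_toType' (κ : Cardinal.{0}) : #κ.ord.ToType = κ := by
  rw [← card_type (· < · : κ.ord.ToType → κ.ord.ToType → Prop), type_toType, card_ord]

theorem mk_Iio_toType {κ : Cardinal.{0}} (w : κ.ord.ToType) : #(Iio w) < κ := by
  have h := mk_Iio_lt w (by rw [mk_toType', type_toType])
  rwa [mk_toType'] at h

theorem setting_of {ν : Cardinal.{0}} (h1 : ℵ₀ ≤ ν) (h2 : 2 ^ ν = succ ν) :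
    Setting ν (succ (succ ν)).ord.ToType where
  inf := h1
  pow := by
    rw [← h2, ← power_mul, mul_eq_self h1]
  bW s hs := reg_bdd (isRegular_succ (h1.trans (le_succ ν))) s (lt_succ_iff.2 hs)
  iW w := lt_succ_iff.1 (mk_Iio_toType w)

/-- The ordinal of a point. -/
noncomputable def ov {κ : Ordinal.{0}} (x : κ.ToType) : Ordinal.{0} :=
  typein (· < · : κ.ToType → κ.ToType → Prop) x

theorem ov_lt {κ : Ordinal.{0}} {x y : κ.ToType} : ov x < ov y ↔ x < y :=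
  typein_lt_typein (· < · : κ.ToType → κ.ToType → Prop)

theorem ov_le {κ : Ordinal.{0}} {x y : κ.ToType} : ov x ≤ ov y ↔ x ≤ y := by
  rw [← not_lt, ov_lt, not_lt]

theorem ov_inj {κ : Ordinal.{0}} {x y : κ.ToType} (h : ov x = ov y) : x = y :=
  le_antisymm (ov_le.1 h.le) (ov_le.1 h.ge)

theorem ov_lt_self {κ : Ordinal.{0}} (x : κ.ToType) : ov x < κ := typein_lt_self x

theorem exists_ov {κ : Ordinal.{0}} {a : Ordinal.{0}} (h : a < κ) : ∃ x : κ.ToType, ov x = a := by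
  have h1 : a < typeLT κ.ToType := by rwa [type_toType]
  exact typein_surj _ h1

/-- Points of large cofinality. -/
theorem cofI_of {κ : Ordinal.{0}} {ν : Cardinal.{0}} {x : κ.ToType} (h : (ov x).cof = succ ν) :
    CofI ν x := by
  intro s hs hsx
  have h1 : ⨆ a : s, (ov a.1 + 1) < ov x := by
    apply iSup_add_one_lt_of_lt_cof
    · rw [h]
      exact lt_succ_of_le hs
    · exact fun a => ov_lt.2 (hsx a.1 a.2)
  obtain ⟨b, hb⟩ := exists_ov (h1.trans (ov_lt_self x))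
  refine ⟨b, ov_lt.1 (by rw [hb]; exact h1), fun a ha => ?_⟩
  rw [← ov_lt, hb]
  have h2 := Ordinal.lt_iSup_add_one (fun a : s => ov a.1) ⟨a, ha⟩
  exact h2

/-- The function on ordinals of a function on points. -/
theorem lift_fun {κ : Ordinal.{0}} (hκ : 0 < κ) (F : κ.ToType → κ.ToType) :
    ∃ G : Ordinal.{0} → Ordinal.{0}, (∀ a < κ, G a < κ) ∧ ∀ x, G (ov x) = ov (F x) := by
  classical
  refine ⟨fun a => if h : ∃ x : κ.ToType, ov x = a then ov (F h.choose) else 0, ?_, ?_⟩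
  · intro a _
    simp only
    split_ifs with h
    · exact ov_lt_self _
    · exact hκ
  · intro x
    have h : ∃ y : κ.ToType, ov y = ov x := ⟨x, rfl⟩
    simp only [dif_pos h]
    rw [ov_inj h.choose_spec]

theorem card_pre {κ : Ordinal.{0}} {ν : Cardinal.{0}} (U : Set Ordinal.{0})
    (hU : #U ≤ Cardinal.lift.{1} ν) : #{x : κ.ToType | ov x ∈ U} ≤ ν := by
  have h1 := Cardinal.lift_mk_le_lift_mk_of_injective
    (f := fun x : {x : κ.ToType | ov x ∈ U} => (⟨ov x.1, x.2⟩ : U)) (by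
      intro x y hxy
      have h2 : ov x.1 = ov y.1 := congrArg Subtype.val hxy
      exact Subtype.ext (ov_inj h2))
  rw [Cardinal.lift_id'.{0, 1}] at h1
  rw [← Cardinal.lift_le.{1}]
  exact h1.trans hU

theorem ordB {ν : Cardinal.{0}} (h1 : ℵ₀ ≤ ν) (h2 : 2 ^ ν = succ ν) {γ : Type} (hγ : #γ ≤ ν)
    (f : Ordinal.{0} → Ordinal.{0} → γ) (T : Set Ordinal.{0})
    (hT : ∀ b ∈ T, b < (succ (succ ν)).ord)
    (H : ∀ F : Ordinal.{0} → Ordinal.{0}, (∀ a < (succ (succ ν)).ord, F a < (succ (succ ν)).ord) →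
      ∃ b ∈ T, b.cof = succ ν ∧ (∀ d < b, F d < b) ∧
        ∀ e < b, ∃ η, e < η ∧ η < b ∧ η.cof = succ ν ∧ (∀ d < η, F d < η) ∧
          ∃ c, η ≤ c ∧ c < b ∧ ∃ U : Set Ordinal.{0}, #U ≤ Cardinal.lift.{1} ν ∧
            (∀ u ∈ U, u < η) ∧
            ∀ a ∈ T, a < η → (∀ u ∈ U, u < a ∧ f u a = f u b) → f a c = f a b) :
    ∃ n, ∃ h : Ordinal.{0} → Ordinal.{0},
      (∀ j < (succ ν).ord * (succ ν).ord + 1, h j ∈ T) ∧
      ∀ i j, i < j → j < (succ ν).ord * (succ ν).ord + 1 → h i < h j ∧ f (h i) (h j) = n := by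
  classical
  have hs := setting_of h1 h2
  have hpos : 0 < (succ (succ ν)).ord := by
    rw [Cardinal.lt_ord, Ordinal.card_zero]
    exact lt_of_lt_of_le aleph0_pos ((h1.trans (le_succ ν)).trans (le_succ _))
  obtain ⟨n, b, h, hbT, hh1, hh2⟩ := mainB hs hγ (fun x y => f (ov x) (ov y))
    {x | ov x ∈ T} (by
      intro F
      obtain ⟨G, hG1, hG2⟩ := lift_fun hpos F
      obtain ⟨b, hbT, hbc, hbG, hb⟩ := H G hG1
      obtain ⟨b, rfl⟩ := exists_ov (hT b hbT)
      refine ⟨b, hbT, cofI_of hbc, fun d hd => ?_, fun e he => ?_⟩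
      · have h3 := hbG (ov d) (ov_lt.2 hd)
        rw [hG2] at h3
        exact ov_lt.1 h3
      obtain ⟨η, h3, h4, h5, h6, c, h7, h8, U, h9, h10, h11⟩ := hb (ov e) (ov_lt.2 he)
      obtain ⟨η, rfl⟩ := exists_ov (h4.trans (ov_lt_self b))
      obtain ⟨c, rfl⟩ := exists_ov (h8.trans (ov_lt_self b))
      refine ⟨η, ov_lt.1 h3, cofI_of h5, fun d hd => ?_, c, ov_le.1 h7, ov_lt.1 h8,
        {x | ov x ∈ U}, card_pre U h9, fun u hu => ov_lt.1 (h10 _ hu), fun a haT ha haU => ?_⟩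
      · have h3 := h6 (ov d) (ov_lt.2 hd)
        rw [hG2] at h3
        exact ov_lt.1 h3
      · refine (h11 (ov a) haT (ov_lt.2 ha) fun u hu => ?_).symm
        obtain ⟨u, rfl⟩ := exists_ov (((h10 u hu).trans h4).trans (ov_lt_self b))
        exact ⟨ov_lt.2 (haU u hu).1, (haU u hu).2⟩)
  refine ⟨n, fun j => if j < (succ ν).ord * (succ ν).ord then ov (h j) else ov b, ?_, ?_⟩
  · intro j _
    simp only
    split_ifs with hj
    · exact (hh2 j hj).1
    · exact hbT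
  · intro i j hij hj
    have hj' : j ≤ (succ ν).ord * (succ ν).ord := Order.lt_add_one_iff.1 hj
    have hi : i < (succ ν).ord * (succ ν).ord := hij.trans_le hj'
    simp only [if_pos hi]
    rcases hj'.lt_or_eq with hlt | heq
    · rw [if_pos hlt]
      exact ⟨ov_lt.2 (hh1 i j hij hlt).1, (hh1 i j hij hlt).2⟩
    · rw [if_neg (by rw [heq]; exact lt_irrefl _)]
      exact ⟨ov_lt.2 (hh2 i hi).2.1, (hh2 i hi).2.2⟩

theorem ordA {ν : Cardinal.{0}} (h1 : ℵ₀ ≤ ν) (h2 : 2 ^ ν = succ ν) {γ : Type} (hγ : #γ ≤ ν)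
    (f : Ordinal.{0} → Ordinal.{0} → γ) (T : Set Ordinal.{0})
    (hT : ∀ b ∈ T, b < (succ (succ ν)).ord) (hT' : ∀ e < (succ (succ ν)).ord, ∃ b ∈ T, e ≤ b)
    (H : ∀ F : Ordinal.{0} → Ordinal.{0}, (∀ a < (succ (succ ν)).ord, F a < (succ (succ ν)).ord) →
      ∃ η < (succ (succ ν)).ord, η.cof = succ ν ∧ (∀ d < η, F d < η) ∧
        ∃ g : Ordinal.{0} → Ordinal.{0} → γ, ∀ b ∈ T, η ≤ b → ∃ i < (succ ν).ord,
          ∃ U : Set Ordinal.{0}, #U ≤ Cardinal.lift.{1} ν ∧ (∀ u ∈ U, u < η) ∧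
            ∀ a ∈ T, a < η → (∀ u ∈ U, u < a ∧ f u a = f u b) → f a b = g i a)
    (ξ : Ordinal.{0}) (hξ : ξ < (succ ν).ord ^ (ω : Ordinal.{0})) :
    ∃ n, ∃ h : Ordinal.{0} → Ordinal.{0}, (∀ j < ξ, h j ∈ T) ∧
      ∀ i j, i < j → j < ξ → h i < h j ∧ f (h i) (h j) = n := by
  classical
  have hs := setting_of h1 h2
  have hpos : 0 < (succ (succ ν)).ord := by
    rw [Cardinal.lt_ord, Ordinal.card_zero]
    exact lt_of_lt_of_le aleph0_pos ((h1.trans (le_succ ν)).trans (le_succ _))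
  have hpos' : (succ ν).ord ≠ 0 := by
    rw [Ne, Cardinal.ord_eq_zero]
    exact (lt_of_lt_of_le aleph0_pos (h1.trans (le_succ ν))).ne'
  obtain ⟨m, hm⟩ : ∃ m : ℕ, ξ < (succ ν).ord ^ m := by
    obtain ⟨c, hc, hξc⟩ := (lt_opow_of_isSuccLimit hpos' isSuccLimit_omega0).1 hξ
    obtain ⟨m, rfl⟩ := lt_omega0.1 hc
    exact ⟨m, by rw [← opow_natCast]; exact hξc⟩
  -- the good points and their functions
  let P : Ordinal.{0} → (Ordinal.{0} → Ordinal.{0} → γ) → Prop := fun η g =>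
    ∀ b ∈ T, η ≤ b → ∃ i < (succ ν).ord,
          ∃ U : Set Ordinal.{0}, #U ≤ Cardinal.lift.{1} ν ∧ (∀ u ∈ U, u < η) ∧
            ∀ a ∈ T, a < η → (∀ u ∈ U, u < a ∧ f u a = f u b) → f a b = g i a
  have hg : ∀ η, ∃ g, (∃ g', P η g') → P η g := by
    intro η
    by_cases h : ∃ g', P η g'
    · obtain ⟨g', hg'⟩ := h
      exact ⟨g', fun _ => hg'⟩
    · exact ⟨f, fun h' => absurd h' h⟩
  choose g hg using hg
  obtain ⟨w₀, -⟩ := exists_ov hpos
  obtain ⟨n, h, hh1, hh2⟩ := mainA (I := (succ ν).ord.ToType) hs (mk_toType' _).le hγ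
    (fun x y => f (ov x) (ov y)) {x | ov x ∈ T} {x | ∃ g', P (ov x) g'}
    (fun η i a => g (ov η) (ov i) (ov a)) w₀ (by
      intro e
      obtain ⟨b, hbT, hb⟩ := hT' (ov e) (ov_lt_self e)
      obtain ⟨b, rfl⟩ := exists_ov (hT b hbT)
      exact ⟨b, hbT, ov_le.1 hb⟩) (by
      intro F e
      obtain ⟨e', he'⟩ := hs.bW {e} (by
        rw [mk_singleton]
        exact one_le_aleph0.trans (h1.trans (le_succ ν)))
      obtain ⟨G, hG1, hG2⟩ := lift_fun hpos fun x => max e' (F x)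
      obtain ⟨η, hηκ, hηc, hηG, hη⟩ := H G hG1
      obtain ⟨η, rfl⟩ := exists_ov hηκ
      have hG : ∀ d, d < η → max e' (F d) < η := by
        intro d hd
        have h3 := hηG (ov d) (ov_lt.2 hd)
        rw [hG2] at h3
        exact ov_lt.1 h3
      have hne : ∃ d, d < η := by
        by_contra hcon
        push Not at hcon
        have h3 : ov η = 0 := by
          by_contra h4
          obtain ⟨z, hz⟩ := exists_ov hpos
          refine absurd (hcon z) (not_le.2 (ov_lt.1 ?_))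
          rw [hz]
          exact pos_iff_ne_zero.2 h4
        rw [h3, Ordinal.cof_zero] at hηc
        exact absurd hηc.symm (lt_of_lt_of_le aleph0_pos (h1.trans (le_succ ν))).ne'
      obtain ⟨d, hd⟩ := hne
      exact ⟨η, hη, (he' e rfl).trans ((le_max_left _ _).trans_lt (hG d hd)), cofI_of hηc,
        fun d hd => (le_max_right _ _).trans_lt (hG d hd)⟩) (by
      intro η hη b hbT hb
      obtain ⟨i, hi, U, hU1, hU2, hU3⟩ := hg (ov η) hη (ov b) hbT (ov_le.2 hb)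
      obtain ⟨i, rfl⟩ := exists_ov hi
      refine ⟨i, (fun u => (u, f (ov u) (ov b))) '' {x | ov x ∈ U},
        mk_image_le.trans (card_pre U hU1), ?_, ?_⟩
      · rintro x ⟨u, hu, rfl⟩
        exact ⟨ov_lt.1 (hU2 _ hu), rfl⟩
      · intro a haT ha hSt
        refine hU3 (ov a) haT (ov_lt.2 ha) fun u hu => ?_
        obtain ⟨u, rfl⟩ := exists_ov ((hU2 u hu).trans (ov_lt_self η))
        have h3 := hSt _ ⟨u, hu, rfl⟩
        exact ⟨ov_lt.2 h3.1, h3.2⟩) m
  refine ⟨n, fun j => ov (h j), fun j hj => hh2 j (hj.trans hm), fun i j hij hj => ?_⟩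
  have h3 := hh1 i j hij (hj.trans hm)
  exact ⟨ov_lt.2 h3.1, h3.2⟩

end Pool.Agent.FGM
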