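import Pool.Agent.FGM.Ord

/-!
# FGM: two-coloured sets of type `ν⁺ + α`
-/

set_option autoImplicit false

namespace Pool.Agent.FGM

open Cardinal Order Set Ordinal

/-- Recursion along the ordinals with a free choice at every step. -/
theorem ord_choice' {V : Type}
    (R : ∀ j : Ordinal.{0}, (∀ j', j' < j → V) → V → Prop) (hR : ∀ j g, ∃ v, R j g v) :
    ∃ h : Ordinal.{0} → V, ∀ j, R j (fun j' _ => h j') (h j) := by
  classical
  let F : ∀ j : Ordinal.{0}, (∀ j', j' < j → V) → V := fun j g => Classical.choose (hR j g)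
  refine ⟨(wellFounded_lt (α := Ordinal.{0})).fix F, fun j => ?_⟩
  have h1 := (wellFounded_lt (α := Ordinal.{0})).fix_eq F j
  rw [h1]
  exact Classical.choose_spec (hR j fun j' _ => (wellFounded_lt (α := Ordinal.{0})).fix F j')

/-- Small families of ordinals below `ν⁺` are bounded. -/
theorem bdd_succ {ν : Cardinal.{0}} (hν : ℵ₀ ≤ ν) {Y : Type} (g : Y → Ordinal.{0}) (hY : #Y ≤ ν)
    (hg : ∀ y, g y < (succ ν).ord) : ∃ j < (succ ν).ord, ∀ y, g y < j := by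
  have h1 : ⨆ y, (g y + 1) < (succ ν).ord := by
    apply iSup_add_one_lt_of_lt_cof
    · rw [(isRegular_succ hν).cof_ord]
      exact lt_succ_of_le hY
    · exact hg
  exact ⟨_, h1, fun y => Ordinal.lt_iSup_add_one g y⟩

/-- The set of the values below an ordinal `j < ν⁺` is small. -/
theorem card_vals {ν : Cardinal.{0}} {Y : Type} (j : Ordinal.{0}) (hj : j < (succ ν).ord)
    (k : ∀ j', j' < j → Y) : #{x : Y | ∃ j', ∃ hj : j' < j, x = k j' hj} ≤ ν := by
  have h1 : {x : Y | ∃ j', ∃ hj : j' < j, x = k j' hj} = range fun j' : Iio j => k j'.1 j'.2 := by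
    ext x
    constructor
    · rintro ⟨j', hj', rfl⟩
      exact ⟨⟨j', hj'⟩, rfl⟩
    · rintro ⟨⟨j', hj'⟩, rfl⟩
      exact ⟨j', hj', rfl⟩
  rw [h1]
  have h2 := mk_range_le_lift (f := fun j' : Iio j => k j'.1 j'.2)
  rw [Cardinal.mk_Iio_ordinal] at h2
  have h3 : j.card ≤ ν := lt_succ_iff.1 (Cardinal.lt_ord.1 hj)
  rw [← Cardinal.lift_le.{1}]
  refine h2.trans ?_
  rw [Cardinal.lift_lift, Cardinal.lift_le]
  exact h3

variable {ν : Cardinal.{0}} {W γ : Type} [LinearOrder W]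

/-- A system of predicates on `W` with parameters. -/
structure Lv (ν : Cardinal.{0}) (W : Type) [LinearOrder W] where
  X : Type
  supp : X → W
  P : X → W → Prop
  bd : ∀ d, #{x | supp x < d} ≤ succ ν

/-- `y` is similar to `b` over `s`. -/
def SimL (L : Lv ν W) (s : Set L.X) (y b : W) : Prop :=
  ∀ x ∈ s, L.supp x < y ∧ (L.P x y ↔ L.P x b)

/-- Club many points are closed. -/
theorem closedL [WellFoundedLT W] (hs : Setting ν W) (L : Lv ν W) :
    ∃ F : W → W, ∀ c, CofI ν c → (∀ d < c, F d < c) → ∀ s : Set L.X, #s ≤ ν →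
      (∀ x ∈ s, L.supp x < c) → ∀ b, c ≤ b → ∃ y, y < c ∧ SimL L s y b := by
  classical
  -- the least element of a class
  let cl : Set L.X × Set L.X → Set W := fun p =>
    {y | ∀ x ∈ p.1, L.supp x < y ∧ (L.P x y ↔ x ∈ p.2)}
  have hD : ∀ d : W, ∃ b, ∀ s t : Set L.X, (∀ x ∈ s, L.supp x < d) → #s ≤ ν →
      (∀ x ∈ t, L.supp x < d) → #t ≤ ν → (cl (s, t)).Nonempty → ∃ y ∈ cl (s, t), y < b := by
    intro d
    let mn : Set L.X × Set L.X → W := fun p =>
      if h : (cl p).Nonempty then (wellFounded_lt (α := W)).min (cl p) h else d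
    let B := {t : Set L.X // t ⊆ {x | L.supp x < d} ∧ #t ≤ ν}
    have hB : #B ≤ succ ν := small_sets hs _ (L.bd d)
    have hr : #(range fun p : B × B => mn (p.1.1, p.2.1)) ≤ succ ν := by
      refine mk_range_le.trans ?_
      rw [← mul_def]
      refine (mul_le_mul' hB hB).trans ?_
      exact (mul_eq_self (hs.inf.trans (le_succ ν))).le
    obtain ⟨b, hb⟩ := hs.bW _ hr
    refine ⟨b, fun s t h1 h2 h3 h4 hne => ⟨mn (s, t), ?_, hb _ ⟨(⟨s, h1, h2⟩, ⟨t, h3, h4⟩), rfl⟩⟩⟩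
    have h5 : mn (s, t) = (wellFounded_lt (α := W)).min (cl (s, t)) hne := dif_pos hne
    rw [h5]
    exact WellFounded.min_mem _ _ _
  choose F hF using hD
  refine ⟨F, fun c hc hcl s hsν hsc b hb => ?_⟩
  obtain ⟨d, hdc, hd⟩ := hc (L.supp '' s) (mk_image_le.trans hsν) (by
    rintro a ⟨x, hx, rfl⟩
    exact hsc x hx)
  obtain ⟨t, ht⟩ : ∃ t : Set L.X, t = {x ∈ s | L.P x b} := ⟨_, rfl⟩
  have hts : t ⊆ s := by
    rw [ht]
    exact fun x hx => hx.1
  have hsd : ∀ x ∈ s, L.supp x < d := fun x hx => hd _ ⟨x, hx, rfl⟩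
  obtain ⟨y, hy, hyb⟩ := hF d s t hsd hsν (fun x hx => hsd x (hts hx))
    ((mk_le_mk_of_subset hts).trans hsν) ⟨b, fun x hx => ⟨(hsc x hx).trans_le hb, by
      rw [ht]
      exact ⟨fun h => ⟨hx, h⟩, fun h => h.2⟩⟩⟩
  refine ⟨y, hyb.trans (hcl d hdc), fun x hx => ⟨(hy x hx).1, (hy x hx).2.trans ?_⟩⟩
  rw [ht]
  exact ⟨fun h => h.2, fun h => ⟨hx, h⟩⟩

set_option maxHeartbeats 400000 in
/-- There are closed points of cofinality `ν⁺` above every point. -/
theorem exists_club [WellFoundedLT W] (hs : Setting ν W) (F : W → W) (e : W) :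
    ∃ c, e < c ∧ CofI ν c ∧ ∀ d < c, F d < c := by
  classical
  obtain ⟨h, hh⟩ := ord_choice' (V := W)
    (fun j g v => j < (succ ν).ord → e < v ∧ ∀ j' (hj : j' < j), g j' hj < v ∧
      ∀ a ≤ g j' hj, F a < v) (by
      intro j g
      by_cases hj : j < (succ ν).ord
      · have hinf : ℵ₀ ≤ succ ν := hs.inf.trans (le_succ ν)
        obtain ⟨A, hA⟩ : ∃ A : Set W, A = {x | ∃ j', ∃ hj : j' < j, x = g j' hj} := ⟨_, rfl⟩
        have h1 : #A ≤ succ ν := by
          rw [hA]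
          exact (card_vals j hj g).trans (le_succ ν)
        have h2 : ∀ x : W, #(F '' Iic x : Set W) ≤ succ ν := by
          intro x
          refine mk_image_le.trans ?_
          have h3 : Iic x = Iio x ∪ {x} := by
            ext y
            simp [le_iff_lt_or_eq]
          rw [h3]
          refine (mk_union_le _ _).trans ((add_le_add (hs.iW x) ?_).trans (add_eq_self hinf).le)
          rw [mk_singleton]
          exact one_le_aleph0.trans hinf
        obtain ⟨B, hB⟩ : ∃ B : Set W, B = ⋃ x : A, (F '' Iic x.1) := ⟨_, rfl⟩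
        have h4 : #B ≤ succ ν := by
          rw [hB]
          exact union_le hinf h1 (fun x : A => F '' Iic x.1) fun x => h2 x.1
        obtain ⟨b, hb⟩ := hs.bW (A ∪ B) ((mk_union_le _ _).trans
          ((add_le_add h1 h4).trans (add_eq_self hinf).le))
        obtain ⟨b', hb'⟩ := hs.bW {b, e} ((mk_le_aleph0).trans hinf)
        have hbb : b < b' := hb' b (Or.inl rfl)
        have heb : e < b' := hb' e (Or.inr rfl)
        refine ⟨b', fun _ => ⟨heb, fun j' hj' => ?_⟩⟩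
        have hg : g j' hj' ∈ A := by
          rw [hA]
          exact ⟨j', hj', rfl⟩
        refine ⟨(hb _ (Or.inl hg)).trans hbb, fun a ha => ?_⟩
        have ha' : F a ∈ B := by
          rw [hB]
          exact mem_iUnion.2 ⟨⟨_, hg⟩, ⟨a, ha, rfl⟩⟩
        exact (hb _ (Or.inr ha')).trans hbb
      · exact ⟨e, fun h => absurd h hj⟩)
  have hne : {w : W | ∀ j < (succ ν).ord, h j < w}.Nonempty := by
    obtain ⟨b, hb⟩ := hs.bW {x | ∃ j', ∃ _ : j' < (succ ν).ord, x = h j'}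
      (card_vals (ν := succ ν) (succ ν).ord (by
        rw [Cardinal.ord_lt_ord]
        exact lt_succ _) fun j' _ => h j')
    exact ⟨b, fun j hj => hb _ ⟨j, hj, rfl⟩⟩
  obtain ⟨c, hc, hmin⟩ := (wellFounded_lt (α := W)).has_min _ hne
  have hlt : ∀ d, d < c → ∃ j < (succ ν).ord, d ≤ h j := by
    intro d hd
    by_contra hcon
    push Not at hcon
    exact hmin d hcon hd
  have h0 : (0 : Ordinal.{0}) < (succ ν).ord := by
    rw [Cardinal.lt_ord, Ordinal.card_zero]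
    exact lt_of_lt_of_le aleph0_pos (hs.inf.trans (le_succ ν))
  have hsucc : ∀ j < (succ ν).ord, j + 1 < (succ ν).ord := by
    intro j hj
    exact (isSuccLimit_ord (hs.inf.trans (le_succ ν))).add_one_lt hj
  refine ⟨c, (hh 0 h0).1.trans (hc 0 h0), ?_, ?_⟩
  · intro s hsν hsc
    choose! j hj1 hj2 using fun x (hx : x ∈ s) => hlt x (hsc x hx)
    obtain ⟨j₀, hj₀, hb⟩ := bdd_succ hs.inf (fun x : s => j x.1) hsν fun x => hj1 x.1 x.2
    exact ⟨h j₀, hc j₀ hj₀, fun a ha => (hj2 a ha).trans_lt ((hh j₀ hj₀).2 _ (hb ⟨a, ha⟩)).1⟩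
  · intro d hd
    obtain ⟨j, hj, hdj⟩ := hlt d hd
    exact ((hh (j + 1) (hsucc j hj)).2 j (lt_add_one j)).2 d hdj |>.trans (hc _ (hsucc j hj))

/-- The basic system. -/
def L0 (hs : Setting ν W) (hγ : #γ ≤ ν) (f : W → W → γ) : Lv ν W where
  X := W × γ
  supp p := p.1
  P p y := f p.1 y = p.2
  bd d := by
    have hinf : ℵ₀ ≤ succ ν := hs.inf.trans (le_succ ν)
    have h1 : #{x : W × γ | x.1 < d} ≤ #(Iio d × γ) := by
      refine mk_le_of_injective (f := fun x => (⟨x.1.1, x.2⟩, x.1.2)) ?_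
      rintro ⟨⟨i, x⟩, hx⟩ ⟨⟨j, y⟩, hy⟩ h
      simpa using h
    refine h1.trans ?_
    rw [mk_prod, Cardinal.lift_id, Cardinal.lift_id]
    exact (mul_le_mul' (hs.iW d) (hγ.trans (le_succ ν))).trans (mul_eq_self hinf).le

/-- No point below `η` which is similar to `y` over `s` has the colour `n` with `y` and all the
points of `C`. -/
def Qp (f : W → W → γ) (η : W) (C : Set W) (n : γ) (s : Set (W × γ)) (y : W) : Prop :=
  ∀ x < η, (∀ p ∈ s, p.1 < x ∧ (f p.1 x = p.2 ↔ f p.1 y = p.2)) → f x y = n →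
    ¬ ∀ c ∈ C, f x c = n

/-- The parameters `(u, C, n, s)` with `C` below `u` and `s` below `η ≤ u`. -/
abbrev Par1 (ν : Cardinal.{0}) (γ : Type) (η : W) : Type :=
  {p : W × Set W × γ × Set (W × γ) // η ≤ p.1 ∧ (∀ c ∈ p.2.1, c < p.1) ∧
    #p.2.1 ≤ ν ∧ #p.2.2.2 ≤ ν ∧ ∀ q ∈ p.2.2.2, q.1 < η}

/-- The second system. -/
def L1 (hs : Setting ν W) (hγ : #γ ≤ ν) (f : W → W → γ) (η : W) : Lv ν W where
  X := (W × γ) ⊕ Par1 ν γ η
  supp := Sum.elim (fun p => p.1) fun p => p.1.1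
  P := Sum.elim (fun p y => f p.1 y = p.2) fun p y => Qp f η p.1.2.1 p.1.2.2.1 p.1.2.2.2 y
  bd d := by
    have hinf : ℵ₀ ≤ succ ν := hs.inf.trans (le_succ ν)
    have h0 : #{x : W × γ | x.1 < d} ≤ succ ν := (L0 hs hγ f).bd d
    let B := {t : Set (W × γ) // t ⊆ {x | x.1 < d} ∧ #t ≤ ν}
    let A := {t : Set W // t ⊆ Iio d ∧ #t ≤ ν}
    have hB : #B ≤ succ ν := small_sets hs _ h0
    have hA : #A ≤ succ ν := small_sets hs _ (hs.iW d)
    refine le_trans (b := #({x : W × γ | x.1 < d} ⊕ (Iio d × A × γ × B))) ?_ ?_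
    · refine mk_le_of_injective (f := fun x => match x with
        | ⟨Sum.inl p, hp⟩ => Sum.inl ⟨p, hp⟩
        | ⟨Sum.inr p, hp⟩ => Sum.inr (⟨p.1.1, hp⟩, ⟨p.1.2.1, fun c hc =>
            (p.2.2.1 c hc).trans hp, p.2.2.2.1⟩, p.1.2.2.1, ⟨p.1.2.2.2, fun q hq =>
            (p.2.2.2.2.2 q hq).trans (p.2.1.trans_lt hp), p.2.2.2.2.1⟩)) ?_
      rintro ⟨p | ⟨⟨u, C, n, s⟩, hp⟩, hx⟩ ⟨p' | ⟨⟨u', C', n', s'⟩, hp'⟩, hy⟩ h
      · simpa using h
      · simp at h
      · simp at h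
      · simp only [Sum.inr.injEq, Prod.mk.injEq, Subtype.mk.injEq] at h
        obtain ⟨h1, h2, h3, h4⟩ := h
        have h5 : C = C' := congrArg Subtype.val h2
        have h6 : s = s' := congrArg Subtype.val h4
        subst h1 h5 h3 h6
        rfl
    · rw [mk_sum, mk_prod, mk_prod, mk_prod]
      simp only [Cardinal.lift_id]
      have h4 : #(Iio d) * (#A * (#γ * #B)) ≤ succ ν := by
        refine (mul_le_mul' (hs.iW d) (mul_le_mul' hA (mul_le_mul' (hγ.trans (le_succ ν))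
          hB))).trans ?_
        rw [mul_eq_self hinf, mul_eq_self hinf, mul_eq_self hinf]
      exact (add_le_add h0 h4).trans (add_eq_self hinf).le

/-- Club many points are closed for the basic system. -/
theorem closed0 [WellFoundedLT W] (hs : Setting ν W) (hγ : #γ ≤ ν) (f : W → W → γ) :
    ∃ F : W → W, ∀ c, CofI ν c → (∀ d < c, F d < c) → ∀ s : Set (W × γ), #s ≤ ν →
      (∀ p ∈ s, p.1 < c) → ∀ b, c ≤ b →
      ∃ y, y < c ∧ ∀ p ∈ s, p.1 < y ∧ (f p.1 y = p.2 ↔ f p.1 b = p.2) :=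
  closedL hs (L0 hs hγ f)

/-- Club many points `e` have a positive colour for the second system. -/
theorem closed1 [WellFoundedLT W] (hs : Setting ν W) (hγ : #γ ≤ ν) (f : W → W → γ) (η : W) :
    ∃ F : W → W, ∀ e, CofI ν e → (∀ d < e, F d < e) → ∃ m, ∀ s : Set (W × γ), #s ≤ ν →
      (∀ p ∈ s, p.1 < e) → ∀ t : Set (Par1 ν γ η), #t ≤ ν → (∀ p ∈ t, p.1.1 < e) →
      ∃ y < e, f y e = m ∧ (∀ p ∈ s, p.1 < y ∧ (f p.1 y = p.2 ↔ f p.1 e = p.2)) ∧
        ∀ p ∈ t, p.1.1 < y ∧ (Qp f η p.1.2.1 p.1.2.2.1 p.1.2.2.2 y ↔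
          Qp f η p.1.2.1 p.1.2.2.1 p.1.2.2.2 e) := by
  obtain ⟨F, hF⟩ := closedL hs (L1 hs hγ f η)
  refine ⟨F, fun e he1 he2 => ?_⟩
  have he := hF e he1 he2
  by_contra hcon
  push Not at hcon
  choose s hs1 hs2 t ht1 ht2 hst using hcon
  have hcard : #((⋃ m, Sum.inl '' s m) ∪ ⋃ m, Sum.inr '' t m : Set ((W × γ) ⊕ Par1 ν γ η)) ≤ ν := by
    refine (mk_union_le _ _).trans ((add_le_add ?_ ?_).trans (add_eq_self hs.inf).le)
    · exact union_le hs.inf hγ _ fun m => mk_image_le.trans (hs1 m)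
    · exact union_le hs.inf hγ _ fun m => mk_image_le.trans (ht1 m)
  obtain ⟨y, hy, hsim⟩ := he _ hcard (by
    rintro x (hx | hx)
    · obtain ⟨m, hm⟩ := mem_iUnion.1 hx
      obtain ⟨p, hp, rfl⟩ := hm
      exact hs2 m p hp
    · obtain ⟨m, hm⟩ := mem_iUnion.1 hx
      obtain ⟨p, hp, rfl⟩ := hm
      exact ht2 m p hp) e le_rfl
  obtain ⟨p, hp, hpn⟩ := hst (f y e) y hy rfl (fun p hp => by
    have h1 := hsim (Sum.inl p) (Or.inl (mem_iUnion.2 ⟨f y e, ⟨p, hp, rfl⟩⟩))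
    exact ⟨h1.1, h1.2⟩)
  have h1 := hsim (Sum.inr p) (Or.inr (mem_iUnion.2 ⟨f y e, ⟨p, hp, rfl⟩⟩))
  have h2 := hpn h1.1
  rcases h2 with h2 | h2
  · exact h2.2 (h1.2.1 h2.1)
  · exact h2.1 (h1.2.2 h2.2)

end Pool.Agent.FGM
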