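import Pool.Agent.FGM.Tops

/-!
# FGM: two-coloured sets of type `ν⁺ + α`, the proof
-/

set_option autoImplicit false

namespace Pool.Agent.FGM

open Cardinal Order Set Ordinal

variable {ν : Cardinal.{0}} {W γ : Type} [LinearOrder W]

/-- The colour `n` is positive for the top `e` and the set `C` at `η`. -/
def PosC (ν : Cardinal.{0}) (f : W → W → γ) (η e : W) (C : Set W) (n : γ) : Prop :=
  ∀ s : Set (W × γ), #s ≤ ν → (∀ p ∈ s, p.1 < η) → ∃ x < η,
    (∀ p ∈ s, p.1 < x ∧ (f p.1 x = p.2 ↔ f p.1 e = p.2)) ∧ f x e = n ∧ ∀ c ∈ C, f x c = n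

/-- A positive colour gives a homogeneous set of type `ν⁺`. -/
theorem hom_of_pos (f : W → W → γ) (η e : W) (C : Set W) (n : γ)
    (h : PosC ν f η e C n) :
    ∃ K : Ordinal.{0} → W, (∀ i j, i < j → j < (succ ν).ord → K i < K j ∧ f (K i) (K j) = n) ∧
      ∀ i < (succ ν).ord, K i < η ∧ ∀ c ∈ C, f (K i) c = n := by
  classical
  obtain ⟨K, hK⟩ := ord_choice' (V := W)
    (fun j g v => j < (succ ν).ord → (∀ j' (hj : j' < j), g j' hj < η ∧ f (g j' hj) e = n) →
      v < η ∧ f v e = n ∧ (∀ c ∈ C, f v c = n) ∧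
        ∀ j' (hj : j' < j), g j' hj < v ∧ f (g j' hj) v = n) (by
      intro j g
      by_cases hcase : j < (succ ν).ord ∧ ∀ j' (hj : j' < j), g j' hj < η ∧ f (g j' hj) e = n
      · obtain ⟨hj, hg⟩ := hcase
        obtain ⟨x, hxη, hx1, hx2, hx3⟩ := h {p | ∃ j', ∃ hj : j' < j, p = (g j' hj, n)}
          (card_vals j hj fun j' hj' => (g j' hj', n)) (by
            rintro p ⟨j', hj', rfl⟩
            exact (hg j' hj').1)
        refine ⟨x, fun _ _ => ⟨hxη, hx2, hx3, fun j' hj' => ?_⟩⟩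
        have h1 := hx1 _ ⟨j', hj', rfl⟩
        exact ⟨h1.1, h1.2.2 (hg j' hj').2⟩
      · exact ⟨e, fun h1 h2 => absurd ⟨h1, h2⟩ hcase⟩)
  have key : ∀ j, j < (succ ν).ord → K j < η ∧ f (K j) e = n := by
    intro j
    induction j using WellFoundedLT.induction with
    | _ j ih =>
      intro hj
      have h1 := hK j hj fun j' hj' => ih j' hj' (hj'.trans hj)
      exact ⟨h1.1, h1.2.1⟩
  have hK' := fun j (hj : j < (succ ν).ord) => hK j hj fun j' hj' => key j' (hj'.trans hj)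
  exact ⟨K, fun i j hij hj => (hK' j hj).2.2.2 i hij, fun i hi => ⟨(key i hi).1,
    (hK' i hi).2.2.1⟩⟩

/-- An increasing sequence in an unbounded subset of `τ⁺`. -/
theorem exists_seq {τ : Cardinal.{0}} (hτ : ℵ₀ ≤ τ) (P : Ordinal.{0} → Prop)
    (hP : ∀ i < (succ τ).ord, ∃ j, i < j ∧ j < (succ τ).ord ∧ P j) :
    ∃ c : Ordinal.{0} → Ordinal.{0}, ∀ i < (succ τ).ord, c i < (succ τ).ord ∧ P (c i) ∧
      ∀ i' < i, c i' < c i := by
  classical
  have h0 : (0 : Ordinal.{0}) < (succ τ).ord := by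
    rw [Cardinal.lt_ord, Ordinal.card_zero]
    exact lt_of_lt_of_le aleph0_pos (hτ.trans (le_succ τ))
  obtain ⟨c, hc⟩ := ord_choice (V := Ordinal.{0})
    (fun i g v => i < (succ τ).ord → (∀ i' (hi : i' < i), g i' hi < (succ τ).ord) →
      v < (succ τ).ord ∧ P v ∧ ∀ i' (hi : i' < i), g i' hi < v) (by
      intro i g
      by_cases hcase : i < (succ τ).ord ∧ ∀ i' (hi : i' < i), g i' hi < (succ τ).ord
      · obtain ⟨hi, hg⟩ := hcase
        obtain ⟨b, hb1, hb2⟩ : ∃ b < (succ τ).ord, ∀ i' (hi : i' < i), g i' hi < b := by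
          have h1 : #i.ToType ≤ τ := by
            rw [Cardinal.mk_toType]
            exact lt_succ_iff.1 (Cardinal.lt_ord.1 hi)
          obtain ⟨b, hb1, hb2⟩ := bdd_succ hτ (fun y : i.ToType => g (ov y) (ov_lt_self y)) h1
            fun y => hg _ _
          refine ⟨b, hb1, fun i' hi' => ?_⟩
          obtain ⟨y, rfl⟩ := exists_ov hi'
          exact hb2 y
        obtain ⟨v, hv1, hv2, hv3⟩ := hP b hb1
        exact ⟨v, fun _ _ => ⟨hv2, hv3, fun i' hi' => (hb2 i' hi').trans hv1⟩⟩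
      · exact ⟨0, fun h1 h2 => absurd ⟨h1, h2⟩ hcase⟩)
  have key : ∀ i, i < (succ τ).ord → c i < (succ τ).ord := by
    intro i
    induction i using WellFoundedLT.induction with
    | _ i ih =>
      intro hi
      exact (hc i hi fun i' hi' => ih i' hi' (hi'.trans hi)).1
  refine ⟨c, fun i hi => ?_⟩
  have h1 := hc i hi fun i' hi' => key i' (hi'.trans hi)
  exact ⟨h1.1, h1.2.1, h1.2.2⟩

set_option maxHeartbeats 1000000 in
/-- Two-coloured sets of type `ν⁺ + α`. -/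
theorem two [WellFoundedLT W] (hs : Setting ν W) {τ : Cardinal.{0}} (hτ : ℵ₀ ≤ τ)
    (hτν : 2 ^ τ ≤ ν) (hγ : #γ ≤ τ) (f : W → W → γ) (w₀ : W) :
    ∃ m n : γ, ∀ α < (succ τ).ord, ∃ K C : Ordinal.{0} → W,
      (∀ i j, i < j → j < (succ ν).ord → K i < K j ∧ f (K i) (K j) = n) ∧
      (∀ i j, i < j → j < α → C i < C j ∧ f (C i) (C j) = m) ∧
      ∀ i < (succ ν).ord, ∀ j < α, K i < C j ∧ f (K i) (C j) = n := by
  classical
  have hinf := hs.inf
  have hτν' : τ ≤ ν := (cantor τ).le.trans hτν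
  have hγν : #γ ≤ ν := hγ.trans hτν'
  have hsτ : succ τ ≤ ν := succ_le_of_lt ((cantor τ).trans_le hτν)
  obtain ⟨F0, hF0⟩ := closed0 hs hγν f
  obtain ⟨η, -, hηc, hηF⟩ := exists_club hs F0 w₀
  have hη := hF0 η hηc hηF
  obtain ⟨F1, hF1⟩ := closed1 hs hγν f η
  obtain ⟨e, hηe, hec, heF⟩ := exists_club hs F1 η
  obtain ⟨m, hm⟩ := hF1 e hec heF
  -- the witnesses
  have hwit : ∀ (C : Set W) (n : γ), ∃ s : Set (W × γ), #s ≤ ν ∧ (∀ p ∈ s, p.1 < η) ∧
      (¬ PosC ν f η e C n → Qp f η C n s e) := by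
    intro C n
    by_cases h : PosC ν f η e C n
    · refine ⟨∅, ?_, fun p hp => absurd hp (notMem_empty p), fun h' => absurd h h'⟩
      rw [mk_eq_zero]
      exact zero_le
    · unfold PosC at h
      push Not at h
      obtain ⟨s, h1, h2, h3⟩ := h
      refine ⟨s, h1, h2, fun _ x hx hsim hn hC => ?_⟩
      obtain ⟨c, hc, hcn⟩ := h3 x hx hsim hn
      exact hcn (hC c hc)
  choose s hs1 hs2 hs3 using hwit
  -- the sequence
  obtain ⟨d, hd⟩ := ord_choice' (V := W)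
    (fun j g v => j < (succ τ).ord → (∀ j' (hj : j' < j), g j' hj < e ∧ f (g j' hj) e = m) →
      v < e ∧ η < v ∧ f v e = m ∧ (∀ j' (hj : j' < j), g j' hj < v ∧ f (g j' hj) v = m) ∧
      ∀ C : Set W, C ⊆ {x | ∃ j', ∃ hj : j' < j, x = g j' hj} → ∀ n,
        (Qp f η C n (s C n) e → Qp f η C n (s C n) v) ∧
        ∀ p ∈ s C n, p.1 < v ∧ (f p.1 v = p.2 ↔ f p.1 e = p.2)) (by
      intro j g
      by_cases hcase : j < (succ τ).ord ∧ ∀ j' (hj : j' < j), g j' hj < e ∧ f (g j' hj) e = m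
      swap
      · exact ⟨e, fun h1 h2 => absurd ⟨h1, h2⟩ hcase⟩
      obtain ⟨hj, hg⟩ := hcase
      obtain ⟨D, hD⟩ : ∃ D : Set W, D = {x | ∃ j', ∃ hj : j' < j, x = g j' hj} := ⟨_, rfl⟩
      have hDτ : #D ≤ τ := by
        rw [hD]
        exact card_vals j hj g
      have hDe : ∀ a ∈ D, a < e := by
        rw [hD]
        rintro a ⟨j', hj', rfl⟩
        exact (hg j' hj').1
      obtain ⟨u0, hu0, hu1⟩ := hec D (hDτ.trans hτν') hDe
      obtain ⟨u, hu⟩ : ∃ u, u = max u0 η := ⟨_, rfl⟩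
      have hue : u < e := by
        rw [hu]
        exact max_lt hu0 hηe
      have huη : η ≤ u := by
        rw [hu]
        exact le_max_right _ _
      have huD : ∀ a ∈ D, a < u := fun a ha => by
        rw [hu]
        exact (hu1 a ha).trans_le (le_max_left _ _)
      have hidx : #(𝒫 D × γ) ≤ ν := by
        rw [mk_prod, Cardinal.lift_id, Cardinal.lift_id, mk_powerset]
        exact (mul_le_mul' ((power_le_power_left two_ne_zero hDτ).trans hτν) hγν).trans
          (mul_eq_self hinf).le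
      obtain ⟨S1, hS1⟩ : ∃ S1 : Set (W × γ),
        S1 = {x | ∃ j', ∃ hj : j' < j, x = (g j' hj, m)} := ⟨_, rfl⟩
      obtain ⟨S3, hS3⟩ : ∃ S3 : Set (Par1 ν γ η),
        S3 = range fun q : 𝒫 D × γ => ⟨(u, q.1.1, q.2, s q.1.1 q.2), huη,
          fun c hc => huD c (q.1.2 hc), (mk_le_mk_of_subset q.1.2).trans (hDτ.trans hτν'),
          hs1 _ _, hs2 _ _⟩ := ⟨_, rfl⟩
      obtain ⟨S4, hS4⟩ : ∃ S4 : Set (W × γ), S4 = ⋃ q : 𝒫 D × γ, s q.1.1 q.2 := ⟨_, rfl⟩
      have c1 : #S1 ≤ ν := by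
        rw [hS1]
        exact (card_vals j hj fun j' hj' => (g j' hj', m)).trans hτν'
      have c2 : #({(η, m)} : Set (W × γ)) ≤ ν := by
        rw [mk_singleton]
        exact one_le_aleph0.trans hinf
      have c3 : #S3 ≤ ν := by
        rw [hS3]
        exact mk_range_le.trans hidx
      have c4 : #S4 ≤ ν := by
        rw [hS4]
        exact union_le hinf hidx _ fun q => hs1 _ _
      obtain ⟨v, hve, hvm, hsim, hsim'⟩ := hm (S1 ∪ {(η, m)} ∪ S4)
        ((mk_union_le _ _).trans ((add_le_add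
          ((mk_union_le _ _).trans ((add_le_add c1 c2).trans (add_eq_self hinf).le))
          c4).trans (add_eq_self hinf).le)) (by
          rintro x ((hx | hx) | hx)
          · rw [hS1] at hx
            obtain ⟨j', hj', rfl⟩ := hx
            exact (hg j' hj').1
          · rw [mem_singleton_iff.1 hx]
            exact hηe
          · rw [hS4] at hx
            obtain ⟨q, hq⟩ := mem_iUnion.1 hx
            exact (hs2 _ _ x hq).trans hηe) S3 c3 (by
          intro x hx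
          rw [hS3] at hx
          obtain ⟨q, rfl⟩ := hx
          exact hue)
      refine ⟨v, fun _ _ => ⟨hve, ?_, hvm, ?_, ?_⟩⟩
      · exact (hsim (η, m) (Or.inl (Or.inr rfl))).1
      · intro j' hj'
        have h1 := hsim (g j' hj', m) (Or.inl (Or.inl (by
          rw [hS1]
          exact ⟨j', hj', rfl⟩)))
        exact ⟨h1.1, h1.2.2 (hg j' hj').2⟩
      · intro C hC n
        rw [← hD] at hC
        have h1 := hsim' ⟨(u, C, n, s C n), huη, fun c hc => huD c (hC hc),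
          (mk_le_mk_of_subset hC).trans (hDτ.trans hτν'), hs1 _ _, hs2 _ _⟩ (by
            rw [hS3]
            exact ⟨(⟨C, hC⟩, n), rfl⟩)
        refine ⟨h1.2.2, fun p hp => ?_⟩
        exact hsim p (Or.inr (by
          rw [hS4]
          exact mem_iUnion.2 ⟨(⟨C, hC⟩, n), hp⟩)))
  have key : ∀ j, j < (succ τ).ord → d j < e ∧ f (d j) e = m := by
    intro j
    induction j using WellFoundedLT.induction with
    | _ j ih =>
      intro hj
      have h1 := hd j hj fun j' hj' => ih j' hj' (hj'.trans hj)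
      exact ⟨h1.1, h1.2.2.1⟩
  have hd' := fun j (hj : j < (succ τ).ord) => hd j hj fun j' hj' => key j' (hj'.trans hj)
  -- the point `x`
  obtain ⟨A, hA⟩ : ∃ A : Set W, A = {x | ∃ j', ∃ _ : j' < (succ τ).ord, x = d j'} := ⟨_, rfl⟩
  have hAτ : #A ≤ succ τ := by
    rw [hA]
    exact card_vals (ν := succ τ) (succ τ).ord (by
      rw [Cardinal.ord_lt_ord]
      exact lt_succ _) fun j' _ => d j'
  have hidx : #({C : Set W // C ⊆ A ∧ #C ≤ τ} × γ) ≤ ν := by
    rw [mk_prod, Cardinal.lift_id, Cardinal.lift_id]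
    refine (mul_le_mul' ?_ hγν).trans (mul_eq_self hinf).le
    refine (mk_bounded_subset_le _ _).trans ?_
    refine (power_le_power_right (c := τ) (max_le (hAτ.trans (succ_le_of_lt (cantor τ)))
      (hτ.trans (cantor τ).le))).trans ?_
    rw [← power_mul, mul_eq_self hτ]
    exact hτν
  obtain ⟨x, hxη, hx⟩ := hη (⋃ q : {C : Set W // C ⊆ A ∧ #C ≤ τ} × γ, s q.1.1 q.2)
    (union_le hinf hidx _ fun q => hs1 _ _) (by
      intro p hp
      obtain ⟨q, hq⟩ := mem_iUnion.1 hp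
      exact hs2 _ _ p hq) e hηe.le
  -- the colour `n`
  obtain ⟨n, hn⟩ : ∃ n, ∀ i < (succ τ).ord, ∃ j, i < j ∧ j < (succ τ).ord ∧ f x (d j) = n := by
    by_contra hcon
    push Not at hcon
    choose i hi1 hi2 using hcon
    obtain ⟨b, hb1, hb2⟩ := bdd_succ hτ i hγ hi1
    exact hi2 _ b (hb2 _) hb1 rfl
  obtain ⟨c, hc⟩ := exists_seq hτ (fun j => f x (d j) = n) hn
  refine ⟨m, n, fun α hα => ?_⟩
  obtain ⟨C, hC⟩ : ∃ C : Set W, C = {y | ∃ i, ∃ _ : i < α, y = d (c i)} := ⟨_, rfl⟩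
  have hCτ : #C ≤ τ := by
    rw [hC]
    exact card_vals α hα fun i _ => d (c i)
  have hCA : C ⊆ A := by
    rw [hC, hA]
    rintro y ⟨i, hi, rfl⟩
    exact ⟨c i, (hc i (hi.trans hα)).1, rfl⟩
  have hPos : PosC ν f η e C n := by
    by_contra hnot
    have hQ := hs3 C n hnot
    have hcα := hc α hα
    have h1 := (hd' (c α) hcα.1).2.2.2.2 C (by
      rw [hC]
      rintro y ⟨i, hi, rfl⟩
      exact ⟨c i, hcα.2.2 i hi, rfl⟩) n
    refine h1.1 hQ x hxη (fun p hp => ?_) hcα.2.1 (fun y hy => ?_)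
    · have h2 := hx p (mem_iUnion.2 ⟨(⟨C, hCA, hCτ⟩, n), hp⟩)
      exact ⟨h2.1, h2.2.trans (h1.2 p hp).2.symm⟩
    · rw [hC] at hy
      obtain ⟨i, hi, rfl⟩ := hy
      exact (hc i (hi.trans hα)).2.1
  obtain ⟨K, hK1, hK2⟩ := hom_of_pos f η e C n hPos
  refine ⟨K, fun i => d (c i), hK1, ?_, ?_⟩
  · intro i j hij hj
    exact (hd' (c j) (hc j (hj.trans hα)).1).2.2.2.1 (c i) ((hc j (hj.trans hα)).2.2 i hij)
  · intro i hi j hj
    refine ⟨(hK2 i hi).1.trans (hd' (c j) (hc j (hj.trans hα)).1).2.1, (hK2 i hi).2 _ ?_⟩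
    rw [hC]
    exact ⟨j, hj, rfl⟩

end Pool.Agent.FGM
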