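import Pool.Agent.FGM.Two

/-!
# FGM: two-coloured sets of type `ν⁺ + α`, ordinal form
-/

set_option autoImplicit false

namespace Pool.Agent.FGM

open Cardinal Order Set Ordinal

theorem two_ord {ν τ : Cardinal.{0}} (hτ : ℵ₀ ≤ τ) (hτν : 2 ^ τ ≤ ν) (h2 : 2 ^ ν = succ ν)
    {γ : Type} (hγ : #γ ≤ τ) (f : Ordinal.{0} → Ordinal.{0} → γ) :
    ∃ m n : γ, ∀ α < (succ τ).ord, ∃ h : Ordinal.{0} → Ordinal.{0},
      (∀ j < (succ ν).ord + α, h j < (succ (succ ν)).ord) ∧
      ∀ i j, i < j → j < (succ ν).ord + α → h i < h j ∧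
        (i < (succ ν).ord → f (h i) (h j) = n) ∧ ((succ ν).ord ≤ i → f (h i) (h j) = m) := by
  classical
  have h1 : ℵ₀ ≤ ν := (hτ.trans (cantor τ).le).trans hτν
  have hs := setting_of h1 h2
  have hpos : 0 < (succ (succ ν)).ord := by
    rw [Cardinal.lt_ord, Ordinal.card_zero]
    exact lt_of_lt_of_le aleph0_pos ((h1.trans (le_succ ν)).trans (le_succ _))
  obtain ⟨w₀, -⟩ := exists_ov hpos
  obtain ⟨m, n, hmn⟩ := two hs hτ hτν hγ (fun x y => f (ov x) (ov y)) w₀
  refine ⟨m, n, fun α hα => ?_⟩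
  obtain ⟨K, C, hK, hC, hKC⟩ := hmn α hα
  have hsub : ∀ j, j < (succ ν).ord + α → (succ ν).ord ≤ j → j - (succ ν).ord < α :=
    fun j hj hle => (Ordinal.sub_lt_of_le hle).2 hj
  refine ⟨fun j => if j < (succ ν).ord then ov (K j) else ov (C (j - (succ ν).ord)), ?_, ?_⟩
  · intro j _
    simp only
    split_ifs
    · exact ov_lt_self _
    · exact ov_lt_self _
  · intro i j hij hj
    simp only
    by_cases hi : i < (succ ν).ord
    · rw [if_pos hi]
      by_cases hj' : j < (succ ν).ord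
      · rw [if_pos hj']
        exact ⟨ov_lt.2 (hK i j hij hj').1, fun _ => (hK i j hij hj').2,
          fun h => absurd hi (not_lt.2 h)⟩
      · rw [if_neg hj']
        have h3 := hKC i hi _ (hsub j hj (not_lt.1 hj'))
        exact ⟨ov_lt.2 h3.1, fun _ => h3.2, fun h => absurd hi (not_lt.2 h)⟩
    · have hj' : ¬ j < (succ ν).ord := fun h => hi (hij.trans h)
      rw [if_neg hi, if_neg hj']
      have h3 : i - (succ ν).ord < j - (succ ν).ord := by
        rw [Ordinal.sub_lt_of_le (not_lt.1 hi), Ordinal.add_sub_cancel_of_le (not_lt.1 hj')]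
        exact hij
      have h4 := hC _ _ h3 (hsub j hj (not_lt.1 hj'))
      exact ⟨ov_lt.2 h4.1, fun h => absurd h hi, fun _ => h4.2⟩

end Pool.Agent.FGM
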